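import Mathlib
import Pool.Agent.Helper40.AffCentral

/-!
# Doi cocycle deformations are not always deformations by matched pairs

For every field `k` we exhibit a Hopf algebra `H` and a normalized Sweedler cocycle `σ` on `H` such
that for all matched pairs `(A, H, ◁, ▷)` and all deformation maps `r : H → A` the Hopf algebras
`H_σ` and `H_r` have different multiplications, and are not even isomorphic.

`H = k[g, g⁻¹, x]` is the coordinate algebra of the group of maps `t ↦ a t + b`
(`Δ g = g ⊗ g`, `Δ x = x ⊗ 1 + g ⊗ x`) and `σ(g^i, g^j x^n) = i (i - 1) ⋯ (i - n + 1)`,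
`σ(g^i x^m, -) = 0` for `m > 0`, is the cocycle dual to the Jordanian twist.
Cocentrality forces `r` to be trivial, so that `H_r = H` is commutative, while
`g ·_σ x - x ·_σ g = g - g²`.
-/

set_option autoImplicit false

open scoped TensorProduct
open Coalgebra WithConv

universe u v w

namespace Pool.Agent.Results.MP_16410b_al.DoiMatched

/-- A normalized Sweedler cocycle on the Hopf algebra `H` over the field `k`: a convolution
invertible linear map `σ : H ⊗ H → k` with `σ(h₁, g₁) σ(h₂ g₂, l) = σ(g₁, l₁) σ(h, g₂ l₂)` and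
`σ(h, 1) = σ(1, h) = ε(h)`. Here `ℛ k h` is a representation `Δ(h) = ∑ i, left i ⊗ right i`. -/
structure SweedlerCocycle (k : Type u) (H : Type v) [Field k] [Ring H] [HopfAlgebra k H] where
  /-- the bilinear form `σ : H ⊗ H → k` -/
  form : H ⊗[k] H →ₗ[k] k
  /-- its convolution inverse `σ⁻¹ : H ⊗ H → k` -/
  inv : H ⊗[k] H →ₗ[k] k
  /-- `σ * σ⁻¹ = ε ⊗ ε` in the convolution algebra `Hom(H ⊗ H, k)` -/
  form_mul_inv : toConv form * toConv inv = 1
  /-- `σ⁻¹ * σ = ε ⊗ ε` in the convolution algebra `Hom(H ⊗ H, k)` -/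
  inv_mul_form : toConv inv * toConv form = 1
  /-- `σ(h₁, g₁) σ(h₂ g₂, l) = σ(g₁, l₁) σ(h, g₂ l₂)` -/
  cocycle : ∀ h g l : H,
    ∑ i ∈ (ℛ k h).index, ∑ j ∈ (ℛ k g).index,
      form ((ℛ k h).left i ⊗ₜ (ℛ k g).left j) *
        form (((ℛ k h).right i * (ℛ k g).right j) ⊗ₜ l) =
    ∑ j ∈ (ℛ k g).index, ∑ n ∈ (ℛ k l).index,
      form ((ℛ k g).left j ⊗ₜ (ℛ k l).left n) *
        form (h ⊗ₜ ((ℛ k g).right j * (ℛ k l).right n))
  /-- `σ(h, 1) = ε(h)` -/
  form_one_right : ∀ h : H, form (h ⊗ₜ 1) = counit h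
  /-- `σ(1, h) = ε(h)` -/
  form_one_left : ∀ h : H, form (1 ⊗ₜ h) = counit h

/-- The multiplication `h ·_σ g = σ(h₁, g₁) h₂ g₂ σ⁻¹(h₃, g₃)` of the Doi deformation `H_σ`, that
is, the convolution product `σ * m * σ⁻¹` in `Hom(H ⊗ H, H)`, where `m` is the multiplication
of `H`. -/
noncomputable def SweedlerCocycle.mul {k : Type u} {H : Type v} [Field k] [Ring H]
    [HopfAlgebra k H] (σ : SweedlerCocycle k H) (h g : H) : H :=
  (toConv (Algebra.linearMap k H ∘ₗ σ.form) * toConv (LinearMap.mul' k H) *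
    toConv (Algebra.linearMap k H ∘ₗ σ.inv)).ofConv (h ⊗ₜ g)

/-- The vector space `V` with the multiplication `mul`, the unit `one` and its given coalgebra
structure is a Hopf algebra. -/
structure IsHopf (k : Type u) {V : Type v} [Field k] [AddCommGroup V] [Module k V] [Coalgebra k V]
    (mul : V ⊗[k] V →ₗ[k] V) (one : V) : Prop where
  /-- the unit is a left unit -/
  one_mul : ∀ x : V, mul (one ⊗ₜ x) = x
  /-- the unit is a right unit -/
  mul_one : ∀ x : V, mul (x ⊗ₜ one) = x
  /-- the multiplication is associative -/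
  mul_assoc : ∀ x y z : V, mul (mul (x ⊗ₜ y) ⊗ₜ z) = mul (x ⊗ₜ mul (y ⊗ₜ z))
  /-- `ε(1) = 1` -/
  counit_one : counit (R := k) one = 1
  /-- `Δ(1) = 1 ⊗ 1` -/
  comul_one : comul (R := k) one = one ⊗ₜ one
  /-- `ε(x y) = ε(x) ε(y)` -/
  counit_mul : ∀ x y : V, counit (R := k) (mul (x ⊗ₜ y)) = counit x * counit y
  /-- `Δ(x y) = x₁ y₁ ⊗ x₂ y₂` -/
  comul_mul : ∀ x y : V,
    comul (R := k) (mul (x ⊗ₜ y)) = TensorProduct.map mul mul (comul (R := k) (x ⊗ₜ[k] y))
  /-- there is an antipode: `S(x₁) x₂ = ε(x) 1 = x₁ S(x₂)` -/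
  antipode : ∃ S : V →ₗ[k] V,
    (∀ x : V, mul (TensorProduct.map S LinearMap.id (comul x)) = counit (R := k) x • one) ∧
    (∀ x : V, mul (TensorProduct.map LinearMap.id S (comul x)) = counit (R := k) x • one)

/-- The multiplication `(a ⋈ h) (c ⋈ g) = a (h₁ ▷ c₁) ⋈ (h₂ ◁ c₂) g` of the bicrossed product, as
a linear map `(A ⊗ H) ⊗ (A ⊗ H) → A ⊗ H`. See `bicrossedMul_tmul` for the formula. -/
noncomputable def bicrossedMul {k : Type u} {A : Type v} {H : Type w} [Field k] [Ring A]
    [HopfAlgebra k A] [Ring H] [HopfAlgebra k H]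
    (ract : H ⊗[k] A →ₗ[k] H) (lact : H ⊗[k] A →ₗ[k] A) :
    (A ⊗[k] H) ⊗[k] (A ⊗[k] H) →ₗ[k] A ⊗[k] H :=
  TensorProduct.map (LinearMap.mul' k A) (LinearMap.mul' k H) ∘ₗ
  (TensorProduct.assoc k (A ⊗[k] A) H H).toLinearMap ∘ₗ
  TensorProduct.map ((TensorProduct.assoc k A A H).symm.toLinearMap ∘ₗ
    TensorProduct.map LinearMap.id (TensorProduct.map lact ract ∘ₗ comul)) LinearMap.id ∘ₗ
  TensorProduct.map (TensorProduct.assoc k A H A).toLinearMap LinearMap.id ∘ₗ
  (TensorProduct.assoc k (A ⊗[k] H) A H).symm.toLinearMap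

/-- The defining formula `(a ⋈ h) (c ⋈ g) = a (h₁ ▷ c₁) ⋈ (h₂ ◁ c₂) g` (a sanity check). -/
lemma bicrossedMul_tmul {k : Type u} {A : Type v} {H : Type w} [Field k] [Ring A]
    [HopfAlgebra k A] [Ring H] [HopfAlgebra k H]
    (ract : H ⊗[k] A →ₗ[k] H) (lact : H ⊗[k] A →ₗ[k] A) (a c : A) (h g : H) :
    bicrossedMul ract lact ((a ⊗ₜ h) ⊗ₜ (c ⊗ₜ g)) =
    ∑ i ∈ (ℛ k h).index, ∑ j ∈ (ℛ k c).index,
      (a * lact ((ℛ k h).left i ⊗ₜ (ℛ k c).left j)) ⊗ₜ[k]
        (ract ((ℛ k h).right i ⊗ₜ (ℛ k c).right j) * g) := by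
  simp only [bicrossedMul, LinearMap.comp_apply, TensorProduct.map_tmul, LinearEquiv.coe_coe,
    TensorProduct.assoc_symm_tmul, TensorProduct.assoc_tmul, LinearMap.id_apply,
    TensorProduct.comul_tmul]
  rw [← (ℛ k h).eq, ← (ℛ k c).eq]
  simp only [TensorProduct.sum_tmul, TensorProduct.tmul_sum, map_sum]
  rw [Finset.sum_comm]
  refine Finset.sum_congr rfl fun i _ => Finset.sum_congr rfl fun j _ => ?_
  simp

/-- A matched pair of Hopf algebras `(A, H, ◁, ▷)`. -/
structure MatchedPair (k : Type u) (A : Type v) (H : Type w) [Field k] [Ring A] [HopfAlgebra k A]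
    [Ring H] [HopfAlgebra k H] where
  /-- the coalgebra map `◁ : H ⊗ A → H` -/
  ract : H ⊗[k] A →ₗc[k] H
  /-- the coalgebra map `▷ : H ⊗ A → A` -/
  lact : H ⊗[k] A →ₗc[k] A
  /-- `h ▷ 1 = ε(h) 1` -/
  lact_one : ∀ h : H, lact (h ⊗ₜ 1) = algebraMap k A (counit h)
  /-- `1 ▷ a = a` -/
  one_lact : ∀ a : A, lact (1 ⊗ₜ a) = a
  /-- `1 ◁ a = ε(a) 1` -/
  one_ract : ∀ a : A, ract (1 ⊗ₜ a) = algebraMap k H (counit a)
  /-- `h ◁ 1 = h` -/
  ract_one : ∀ h : H, ract (h ⊗ₜ 1) = h
  /-- `A ⊗ H` with the multiplication `(a ⋈ h) (c ⋈ g) = a (h₁ ▷ c₁) ⋈ (h₂ ◁ c₂) g`, the unit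
  `1 ⋈ 1` and the tensor product coalgebra structure is a Hopf algebra -/
  isHopf : IsHopf k (bicrossedMul ract.toLinearMap lact.toLinearMap) ((1 : A) ⊗ₜ[k] (1 : H))

/-- Sanity check: an ordinary Hopf algebra satisfies `IsHopf`. -/
lemma isHopf_mul' (k : Type u) (V : Type v) [Field k] [Ring V] [HopfAlgebra k V] :
    IsHopf k (LinearMap.mul' k V) (1 : V) where
  one_mul := by simp
  mul_one := by simp
  mul_assoc := by simp [_root_.mul_assoc]
  counit_one := by simp
  comul_one := by simp [Algebra.TensorProduct.one_def]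
  counit_mul := by simp
  comul_mul := by
    intro x y
    have h := congrArg (fun f => f (x ⊗ₜ[k] y)) (Bialgebra.mulCoalgHom k V).map_comp_comul
    exact h.symm
  antipode := ⟨HopfAlgebra.antipode k, by
    constructor
    · intro x
      have := HopfAlgebra.mul_antipode_rTensor_comul_apply (R := k) x
      rw [Algebra.algebraMap_eq_smul_one] at this
      exact this
    · intro x
      have := HopfAlgebra.mul_antipode_lTensor_comul_apply (R := k) x
      rw [Algebra.algebraMap_eq_smul_one] at this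
      exact this⟩

lemma sum_smul_counit {k : Type u} {H : Type w} [Field k] [Ring H] [HopfAlgebra k H] (h : H) :
    ∑ i ∈ (ℛ k h).index, counit (R := k) ((ℛ k h).right i) • (ℛ k h).left i = h := by
  have := congrArg (TensorProduct.rid k H) (Coalgebra.lTensor_counit_comul (R := k) h)
  rw [← (ℛ k h).eq] at this
  simp only [map_sum, LinearMap.lTensor_tmul, TensorProduct.rid_tmul, one_smul] at this
  exact this

/-- Sanity check: the trivial matched pair `h ◁ a = ε(a) h`, `h ▷ a = ε(h) a`, whose bicrossed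
product is the tensor product Hopf algebra. -/
noncomputable def trivialMatchedPair (k : Type u) (A : Type v) (H : Type w) [Field k] [Ring A]
    [HopfAlgebra k A] [Ring H] [HopfAlgebra k H] : MatchedPair k A H where
  ract := (Coalgebra.TensorProduct.rid k k H).toCoalgHom.comp
    (Coalgebra.TensorProduct.map (CoalgHom.id k H) (counitCoalgHom k A))
  lact := (Coalgebra.TensorProduct.lid k A).toCoalgHom.comp
    (Coalgebra.TensorProduct.map (counitCoalgHom k H) (CoalgHom.id k A))
  lact_one := by
    intro h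
    change counit (R := k) h • (1 : A) = _
    rw [Algebra.algebraMap_eq_smul_one]
  one_lact := by
    intro a
    change counit (R := k) (1 : H) • a = _
    simp
  one_ract := by
    intro a
    change counit (R := k) a • (1 : H) = _
    rw [Algebra.algebraMap_eq_smul_one]
  ract_one := by
    intro h
    change counit (R := k) (1 : A) • h = _
    simp
  isHopf := by
    have hmul : bicrossedMul
        ((Coalgebra.TensorProduct.rid k k H).toCoalgHom.comp
          (Coalgebra.TensorProduct.map (CoalgHom.id k H) (counitCoalgHom k A))).toLinearMap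
        ((Coalgebra.TensorProduct.lid k A).toCoalgHom.comp
          (Coalgebra.TensorProduct.map (counitCoalgHom k H) (CoalgHom.id k A))).toLinearMap =
        LinearMap.mul' k (A ⊗[k] H) := by
      refine TensorProduct.ext' fun x y => ?_
      induction x using TensorProduct.induction_on with
      | zero => simp
      | add x x' hx hx' => rw [TensorProduct.add_tmul, LinearMap.map_add, LinearMap.map_add, hx, hx']
      | tmul a h =>
        induction y using TensorProduct.induction_on with
        | zero => simp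
        | add y y' hy hy' =>
          rw [TensorProduct.tmul_add, LinearMap.map_add, LinearMap.map_add, hy, hy']
        | tmul c g =>
          rw [bicrossedMul_tmul]
          have e : ∀ i j, (a * (counit (R := k) ((ℛ k h).left i) • (ℛ k c).left j)) ⊗ₜ[k]
              ((counit (R := k) ((ℛ k c).right j) • (ℛ k h).right i) * g) =
              (a * (counit (R := k) ((ℛ k c).right j) • (ℛ k c).left j)) ⊗ₜ[k]
                ((counit (R := k) ((ℛ k h).left i) • (ℛ k h).right i) * g) := by
            intro i j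
            simp only [mul_smul_comm, smul_mul_assoc, TensorProduct.smul_tmul', TensorProduct.tmul_smul]
            rw [smul_comm]
          have h1 : ∑ i ∈ (ℛ k h).index, counit (R := k) ((ℛ k h).left i) • (ℛ k h).right i = h :=
            Coalgebra.sum_counit_smul (ℛ k h)
          have h2 : ∑ j ∈ (ℛ k c).index, counit (R := k) ((ℛ k c).right j) • (ℛ k c).left j = c :=
            sum_smul_counit c
          calc _ = ∑ i ∈ (ℛ k h).index, ∑ j ∈ (ℛ k c).index,
                (a * (counit (R := k) ((ℛ k c).right j) • (ℛ k c).left j)) ⊗ₜ[k]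
                ((counit (R := k) ((ℛ k h).left i) • (ℛ k h).right i) * g) := by
                refine Finset.sum_congr rfl fun i _ => Finset.sum_congr rfl fun j _ => e i j
            _ = (a * c) ⊗ₜ[k] (h * g) := by
                simp only [← TensorProduct.sum_tmul, ← TensorProduct.tmul_sum, ← Finset.mul_sum,
                  ← Finset.sum_mul]
                rw [h1, h2]
            _ = _ := by simp
    rw [hmul]
    exact isHopf_mul' k (A ⊗[k] H)

/-- `h • g = (h ◁ r(g₁)) g₂` -/
noncomputable def deformedMul {k : Type u} {A : Type v} {H : Type w} [Field k] [Ring A]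
    [HopfAlgebra k A] [Ring H] [HopfAlgebra k H] (P : MatchedPair k A H) (r : H →ₗ[k] A)
    (h g : H) : H :=
  ∑ j ∈ (ℛ k g).index, P.ract (h ⊗ₜ r ((ℛ k g).left j)) * (ℛ k g).right j

/-- A deformation map `r : H → A` of a matched pair `(A, H, ◁, ▷)`. -/
structure DeformationMap {k : Type u} {A : Type v} {H : Type w} [Field k] [Ring A]
    [HopfAlgebra k A] [Ring H] [HopfAlgebra k H] (P : MatchedPair k A H) where
  /-- the coalgebra map `r : H → A` -/
  map : H →ₗc[k] A
  /-- `r` is unitary: `r(1) = 1` -/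
  map_one : map 1 = 1
  /-- `r` is cocentral: `r(h₁) ⊗ h₂ = r(h₂) ⊗ h₁` -/
  cocentral : ∀ h : H,
    ∑ i ∈ (ℛ k h).index, map ((ℛ k h).left i) ⊗ₜ[k] (ℛ k h).right i =
    ∑ i ∈ (ℛ k h).index, map ((ℛ k h).right i) ⊗ₜ[k] (ℛ k h).left i
  /-- `r((h ◁ r(g₁)) g₂) = r(h₁) (h₂ ▷ r(g))` -/
  compat : ∀ h g : H, map (deformedMul P map.toLinearMap h g) =
    ∑ i ∈ (ℛ k h).index, map ((ℛ k h).left i) * P.lact ((ℛ k h).right i ⊗ₜ map g)

/-- The multiplication `h • g = (h ◁ r(g₁)) g₂` of the `r`-deformation `H_r`. -/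
noncomputable def DeformationMap.mul {k : Type u} {A : Type v} {H : Type w} [Field k] [Ring A]
    [HopfAlgebra k A] [Ring H] [HopfAlgebra k H] {P : MatchedPair k A H} (r : DeformationMap P)
    (h g : H) : H :=
  deformedMul P r.map.toLinearMap h g

open Pool.Agent.Helper40.Aff

/-- The Jordanian cocycle on `k[g, g⁻¹, x]`. -/
noncomputable def jordanian (k : Type u) [Field k] : SweedlerCocycle k (AffH k) where
  form := sig
  inv := sigInv
  form_mul_inv := sig_mul_inv
  inv_mul_form := inv_mul_sig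
  cocycle := cocycle
  form_one_right := sig_one_right
  form_one_left := sig_one_left

lemma deformation_mul_eq {k : Type u} [Field k] {A : Type v} [Ring A] [HopfAlgebra k A]
    {P : MatchedPair k A (AffH k)} (r : DeformationMap P) (h g : AffH k) :
    r.mul h g = h * g := by
  have ht : ∀ h : AffH k, r.map h = algebraMap k A (counit (R := k) h) := by
    intro h
    refine cocentral_trivial (r.map : AffH k →ₗ[k] A) r.map_one ?_ h
    intro h
    have e := r.cocentral h
    rw [← (ℛ k h).eq]
    simp only [map_sum, TensorProduct.comm_tmul, TensorProduct.map_tmul, LinearMap.id_apply]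
    exact e
  have e : ∀ j, P.ract (h ⊗ₜ r.map.toLinearMap ((ℛ k g).left j)) * (ℛ k g).right j =
      h * (counit (R := k) ((ℛ k g).left j) • (ℛ k g).right j) := by
    intro j
    have : r.map.toLinearMap ((ℛ k g).left j) = counit (R := k) ((ℛ k g).left j) • (1 : A) := by
      rw [← Algebra.algebraMap_eq_smul_one]
      exact ht _
    rw [this, TensorProduct.tmul_smul, map_smul, P.ract_one, smul_mul_assoc, mul_smul_comm]
  unfold DeformationMap.mul deformedMul
  simp only [e]
  rw [← Finset.mul_sum, Coalgebra.sum_counit_smul]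

/-- Sanity check: `r = ε 1` is a deformation map of every matched pair. -/
noncomputable def trivialDeformationMap {k : Type u} {A : Type v} {H : Type w} [Field k] [Ring A]
    [HopfAlgebra k A] [Ring H] [HopfAlgebra k H] (P : MatchedPair k A H) : DeformationMap P where
  map := { (Algebra.linearMap k A ∘ₗ (counit : H →ₗ[k] k)) with
    counit_comp := by ext h; simp
    map_comp_comul := by
      ext h
      have h1 := Coalgebra.sum_counit_smul (ℛ k h)
      change TensorProduct.map (Algebra.linearMap k A ∘ₗ counit) (Algebra.linearMap k A ∘ₗ counit)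
        (comul h) = comul (R := k) (algebraMap k A (counit h))
      have h2 : counit (R := k) h = ∑ i ∈ (ℛ k h).index,
          counit (R := k) ((ℛ k h).left i) * counit (R := k) ((ℛ k h).right i) := by
        conv_lhs => rw [← h1]
        simp
      rw [← (ℛ k h).eq, Bialgebra.comul_algebraMap, h2, Algebra.algebraMap_eq_smul_one,
        Algebra.TensorProduct.one_def, Finset.sum_smul]
      simp only [map_sum, TensorProduct.map_tmul, LinearMap.comp_apply, Algebra.linearMap_apply,
        Algebra.algebraMap_eq_smul_one, TensorProduct.smul_tmul', TensorProduct.tmul_smul,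
        smul_smul, mul_comm] }
  map_one := by
    change algebraMap k A (counit (R := k) (1 : H)) = 1
    simp
  cocentral := by
    intro h
    change ∑ i ∈ (ℛ k h).index, algebraMap k A (counit (R := k) ((ℛ k h).left i)) ⊗ₜ[k]
      (ℛ k h).right i = ∑ i ∈ (ℛ k h).index, algebraMap k A (counit (R := k) ((ℛ k h).right i)) ⊗ₜ[k]
      (ℛ k h).left i
    simp only [Algebra.algebraMap_eq_smul_one, TensorProduct.smul_tmul, ← TensorProduct.tmul_sum]
    rw [Coalgebra.sum_counit_smul (ℛ k h), sum_smul_counit]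
  compat := by
    intro h g
    have hr : ∀ h : H, (Algebra.linearMap k A ∘ₗ (counit : H →ₗ[k] k)) h =
        counit (R := k) h • (1 : A) := fun h => by
      rw [LinearMap.comp_apply, Algebra.linearMap_apply, Algebra.algebraMap_eq_smul_one]
    change (Algebra.linearMap k A ∘ₗ (counit : H →ₗ[k] k)) (∑ j ∈ (ℛ k g).index,
      P.ract (h ⊗ₜ (Algebra.linearMap k A ∘ₗ (counit : H →ₗ[k] k)) ((ℛ k g).left j)) *
        (ℛ k g).right j) =
      ∑ i ∈ (ℛ k h).index, (Algebra.linearMap k A ∘ₗ (counit : H →ₗ[k] k)) ((ℛ k h).left i) *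
        P.lact ((ℛ k h).right i ⊗ₜ (Algebra.linearMap k A ∘ₗ (counit : H →ₗ[k] k)) g)
    have e : ∀ j, P.ract (h ⊗ₜ (Algebra.linearMap k A ∘ₗ (counit : H →ₗ[k] k))
        ((ℛ k g).left j)) * (ℛ k g).right j =
        h * (counit (R := k) ((ℛ k g).left j) • (ℛ k g).right j) := by
      intro j
      rw [hr, TensorProduct.tmul_smul, map_smul, P.ract_one, smul_mul_assoc, mul_smul_comm]
    have e' : ∀ i, (Algebra.linearMap k A ∘ₗ (counit : H →ₗ[k] k)) ((ℛ k h).left i) *
        P.lact ((ℛ k h).right i ⊗ₜ (Algebra.linearMap k A ∘ₗ (counit : H →ₗ[k] k)) g) =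
        (counit (R := k) (counit (R := k) ((ℛ k h).left i) • (ℛ k h).right i) *
          counit (R := k) g) • (1 : A) := by
      intro i
      rw [hr, hr, TensorProduct.tmul_smul, map_smul, P.lact_one, Algebra.algebraMap_eq_smul_one]
      simp [smul_smul, mul_comm, mul_left_comm]
    simp only [e, e']
    rw [← Finset.mul_sum, Coalgebra.sum_counit_smul, ← Finset.sum_smul, ← Finset.sum_mul,
      ← map_sum, Coalgebra.sum_counit_smul, hr, Bialgebra.counit_mul]

/-- **Negative answer to Q1, over every field.** For every field `k` there are a (commutative) Hopf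
algebra `H` over `k` and a normalized Sweedler cocycle `σ` on `H` such that for every Hopf algebra
`A`, every matched pair `(A, H, ◁, ▷)` and every deformation map `r : H → A` of it, the
multiplications of `H_σ` and `H_r` are different; moreover there is no injective map
`φ : H_σ → H_r` with `φ(h ·_σ g) = φ(h) • φ(g)`, so `H_σ` and `H_r` are not isomorphic. -/
theorem result (k : Type u) [Field k] :
    ∃ (H : Type u) (_ : CommRing H) (_ : HopfAlgebra k H) (σ : SweedlerCocycle k H),
      ∀ (A : Type v) [Ring A] [HopfAlgebra k A] (P : MatchedPair k A H) (r : DeformationMap P),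
        (∃ h g : H, σ.mul h g ≠ r.mul h g) ∧
        ¬ ∃ φ : H → H, Function.Injective φ ∧
          ∀ h g : H, φ (σ.mul h g) = r.mul (φ h) (φ g) := by
  refine ⟨AffH k, inferInstance, inferInstance, jordanian k, ?_⟩
  intro A _ _ P r
  have h1 : (jordanian k).mul (m 1 0) X = m 1 0 + m 1 1 - m 2 0 := twisted_gx
  have h2 : (jordanian k).mul X (m 1 0) = m 1 1 := twisted_xg
  have key : ¬ ∃ φ : AffH k → AffH k, Function.Injective φ ∧
      ∀ h g : AffH k, φ ((jordanian k).mul h g) = r.mul (φ h) (φ g) := by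
    rintro ⟨φ, hφ, hmul⟩
    have e1 := hmul (m 1 0) X
    have e2 := hmul X (m 1 0)
    rw [deformation_mul_eq] at e1 e2
    rw [mul_comm, ← e2] at e1
    have e3 := hφ e1
    rw [h1, h2] at e3
    exact twisted_ne e3
  refine ⟨?_, key⟩
  by_contra hcon
  push Not at hcon
  exact key ⟨id, Function.injective_id, fun h g => hcon h g⟩

end Pool.Agent.Results.MP_16410b_al.DoiMatched
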